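import Pool.Agent.H391.KR.PG
import Pool.Agent.H391.KR.GZ

/-!
# Quantum dimensions of Kirillov-Reshetikhin modules: types A, D, E, F_4, G_2 (MP_7ab4bf_al, Q1)

Together with the classical types, which are known, this is Q1 for all simple Lie algebras.

**Simply laced types.** `S : SLC n` is the Cartan matrix `S.C` of a simple simply laced Lie algebra of rank
`n` (symmetric, integral, 2 on and 0 or -1 off the diagonal, positive definite, connected) with the
coefficients `S.th` of its highest root.  Weights are written in the fundamental weights.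
`GR (Fin n)` is the group ring `ℤ[P]`, `S.RepR` its subring of Weyl group invariants (`chr`: characters).
The multiplicity of `V(mu)` in `f` is the coefficient of `mu` (dominant) in `f * S.Delta`,
`S.Delta = ∏_{a > 0} (1 - e^{-a})`.  `S.qd k mu` is the quantum dimension of `V(mu)` at level `k`, given by the
product of sines, and `S.qdim k f` its additive extension.  `S.KRFam Q`: `Q i m : S.RepR` is the class of
`W^{(i)}_m`, expressed by properties which hold for the Kirillov-Reshetikhin modules by theorems of
Nakajima and Hernandez (`Q i 0 = 1`, the Q-system, highest weight, convergence of the normalised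
characters); there is exactly one family with these properties.

**Types F_4 and G_2.** `F4 : GD 4` and `G2 : GD 2` are the Cartan data: `C i j` is the value of the `i`-th
simple coroot at the `j`-th simple root, `t i = 2 / (α_i | α_i)`, `th` the coroot of the highest root.
`GD.Cor`: the coroots, `GD.pos`: the positive ones, `GD.tt a = 2 / (α | α)` and `GD.rt a` = weight coordinates
of the root `α` of the coroot `a`, `GD.Delta`, `GD.mult`: multiplicities, `GD.qdim k`: quantum dimension at
level `k` (additive extension of the product of sines `GD.qdR (GD.par k)`, `par k = π / (k + h^∨)`).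
`GD.KRFam Q`: `Q i m` is the class of `W^{(i)}_m`, expressed by known properties of these modules: `zero`, `qsys`
the Q-system (Nakajima, Hernandez), `pos`, `top`, `low`: it is the class of a module of highest weight
`m ω_i` with multiplicity one, and `dem`: `W^{(i)}_{t_i m}`, restricted to the Lie algebra, is the Demazure
module of level `m` for the translation by `- ω_i^∨` (Chari-Moura, Fourier-Littelmann; for all types with
Ardonne-Kedem and Di Francesco-Kedem).  Here `GD.dm j` is the Demazure operator of the affine Weyl group,
`xi i` the weight `Λ_0` translated (level one, finite part `- t_i ω_i`) and `Red w (xi i)` says that `w` is a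
reduced word leading from it to `Λ_0`.

`GD.QD Q k i` is the conjunction of (1), (2), (3) for the node `i` at level `k`:
the quantum dimension of `Q i m` is positive for `0 ≤ m ≤ t_i k`, it is `1` for `m = 0` and `m = t_i k`, and
`0` for `m = t_i k + 1`.
-/

namespace Pool.Agent.Results.MP_7ab4bf_al.QDimKRAll

open H391.KR H391.KR.SLC

theorem result :
    (∀ (n : ℕ) (S : SLC n), (∃! Q : Fin n → ℕ → S.RepR, S.KRFam Q) ∧
      ∀ Q : Fin n → ℕ → S.RepR, S.KRFam Q → ∀ (k : ℕ), 1 ≤ k → ∀ i,
        (∀ m ≤ k, 0 < S.qdim k (chr (Q i m))) ∧ S.qdim k (chr (Q i 0)) = 1 ∧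
        S.qdim k (chr (Q i k)) = 1 ∧ S.qdim k (chr (Q i (k + 1))) = 0) ∧
    (∀ Q : Fin 4 → ℕ → F4.RepR, F4.KRFam Q → ∀ k : ℕ, 2 ≤ k → ∀ i, F4.QD Q k i) ∧
    (∀ Q : Fin 2 → ℕ → G2.RepR, G2.KRFam Q → ∀ k : ℕ, 2 ≤ k → ∀ i, G2.QD Q k i) :=
  ⟨fun _ S => ⟨S.main_uniq, fun Q hQ k hk i => S.main_qd Q hQ k hk i⟩, PA.tf4fin, PA.tg2fin⟩

end Pool.Agent.Results.MP_7ab4bf_al.QDimKRAll
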